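import Pool.Agent.H57.CP.Targets

/-!
# MP_397744_co: modules EA and EB of the board `cp_modules`
-/

set_option autoImplicit false

namespace Pool.Agent.H36.CP

open Pool.Agent.H57.CP

variable {v v' : H3} {S T : Equiv.Perm H3} {q : ℕ}

lemma S_mem (S T : Equiv.Perm H3) : S ∈ Gr S T := Subgroup.subset_closure (by simp)

lemma T_mem (S T : Equiv.Perm H3) : T ∈ Gr S T := Subgroup.subset_closure (by simp)

lemma P_mem (S T : Equiv.Perm H3) : T * S⁻¹ ∈ Gr S T :=
  mul_mem (T_mem S T) (inv_mem (S_mem S T))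

lemma P_zpow_mem (S T : Equiv.Perm H3) (k : ℤ) : (T * S⁻¹) ^ k ∈ Gr S T :=
  zpow_mem (P_mem S T) k

lemma gen_Tv' (G : Gen v v' S T q) : T v' = v := by
  have h := congrArg (fun g : Equiv.Perm H3 => g v) G.TT
  simp only [Equiv.Perm.mul_apply, Equiv.Perm.one_apply] at h
  rwa [G.Tv] at h

lemma gen_Tinv (G : Gen v v' S T q) : T⁻¹ = T := inv_eq_of_mul_eq_one_left G.TT

lemma gen_Sinv (G : Gen v v' S T q) : S⁻¹ v = v := by
  rw [Equiv.Perm.inv_eq_iff_eq, G.Sv]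

lemma gen_Pv (G : Gen v v' S T q) : (T * S⁻¹ : Equiv.Perm H3) v = v' := by
  rw [Equiv.Perm.mul_apply, gen_Sinv G, G.Tv]

lemma gen_Pinv_v' (G : Gen v v' S T q) : ((T * S⁻¹)⁻¹ : Equiv.Perm H3) v' = v := by
  rw [Equiv.Perm.inv_eq_iff_eq, gen_Pv G]

lemma gen_Pinv_v (G : Gen v v' S T q) : ((T * S⁻¹)⁻¹ : Equiv.Perm H3) v = S v' := by
  rw [mul_inv_rev, inv_inv, gen_Tinv G, Equiv.Perm.mul_apply, G.Tv]

lemma gen_Pk_v' (G : Gen v v' S T q) (k : ℤ) :
    ((T * S⁻¹) ^ k : Equiv.Perm H3) v' = ((T * S⁻¹) ^ (k + 1) : Equiv.Perm H3) v := by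
  rw [zpow_add_one, Equiv.Perm.mul_apply, gen_Pv G]

lemma gen_S_pow_ne (G : Gen v v' S T q) {k : ℕ} (hk : (S ^ k) v' = v') : S ^ k = 1 := by
  have h1 : S ^ k = S ^ (k % q) := by
    conv_lhs => rw [← Nat.div_add_mod k q, pow_add, pow_mul, G.Sq, one_pow, one_mul]
  have hq : 0 < q := by have := G.q3; omega
  by_cases h0 : k % q = 0
  · rw [h1, h0, pow_zero]
  · exfalso
    rw [h1] at hk
    exact G.fr (k % q) (Nat.pos_of_ne_zero h0) (Nat.mod_lt _ hq) hk

theorem ea : T_EA := by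
  intro v v' S T q G
  have h1 : ∀ g ∈ Gr S T, g v = v → g v' = v' → g = 1 := by
    intro g hg hv hv'
    obtain ⟨k, rfl⟩ := G.st g hg hv
    exact gen_S_pow_ne G hv'
  refine ⟨h1, ?_, ?_, gen_Tv' G, ?_, ?_⟩
  · intro g hg h
    rw [Set.image_pair, Set.pair_eq_pair_iff] at h
    rcases h with ⟨h2, h3⟩ | ⟨h2, h3⟩
    · exact Or.inl (h1 g hg h2 h3)
    · right
      have h4 : T * g = 1 := by
        apply h1 _ (mul_mem (T_mem S T) hg)
        · rw [Equiv.Perm.mul_apply, h2, gen_Tv' G]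
        · rw [Equiv.Perm.mul_apply, h3, G.Tv]
      rw [← gen_Tinv G]
      exact eq_inv_of_mul_eq_one_right h4
  · intro k hk
    apply h1 _ (P_zpow_mem S T k) hk
    rw [gen_Pk_v' G, zpow_add_one, ((Commute.refl (T * S⁻¹)).zpow_left k).eq,
      Equiv.Perm.mul_apply, hk, gen_Pv G]
  · have := G.fr 1 one_pos (by have := G.q3; omega)
    simpa using this
  · intro h
    have := G.fr 2 two_pos (by have := G.q3; omega)
    apply this
    rw [pow_two, Equiv.Perm.mul_apply, h]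
    simp

/-- the edges of the base face -/
lemma edge_eq (G : Gen v v' S T q) (k : ℤ) :
    ((T * S⁻¹) ^ k : Equiv.Perm H3) '' {v, v'} =
      {((T * S⁻¹) ^ k : Equiv.Perm H3) v, ((T * S⁻¹) ^ (k + 1) : Equiv.Perm H3) v} := by
  rw [Set.image_pair, gen_Pk_v' G]

lemma base_mem_f0 (v v' : H3) (S T : Equiv.Perm H3) : ({v, v'} : Set H3) ∈ f0 v v' S T :=
  ⟨0, by simp⟩

lemma base_mem_f0' (G : Gen v v' S T q) : ({v, S v'} : Set H3) ∈ f0 v v' S T :=
  ⟨-1, by rw [edge_eq G]; simp [gen_Pinv_v G, -mul_inv_rev, Set.pair_comm]⟩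

/-- images of the base face under the powers of `P` -/
lemma image_f0 (v v' : H3) (S T : Equiv.Perm H3) (k : ℤ) :
    (Set.image ((T * S⁻¹) ^ k : Equiv.Perm H3)) '' f0 v v' S T = f0 v v' S T := by
  ext e
  constructor
  · rintro ⟨e', ⟨l, rfl⟩, rfl⟩
    refine ⟨k + l, ?_⟩
    rw [zpow_add, Equiv.Perm.coe_mul, Set.image_comp]
  · rintro ⟨l, rfl⟩
    refine ⟨((T * S⁻¹) ^ (l - k) : Equiv.Perm H3) '' {v, v'}, ⟨l - k, rfl⟩, ?_⟩
    rw [← Set.image_comp, ← Equiv.Perm.coe_mul, ← zpow_add]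
    congr 3
    ring

lemma image_image_set (g h : Equiv.Perm H3) (f : Set (Set H3)) :
    (Set.image g) '' ((Set.image h) '' f) = (Set.image (g * h : Equiv.Perm H3)) '' f := by
  rw [← Set.image_comp]
  congr 1
  funext e
  rw [Function.comp_apply, Equiv.Perm.coe_mul, Set.image_comp]

/-- edges of the base face at `v` -/
lemma mem_f0_iff (h : T_EA) (G : Gen v v' S T q) (e : Set H3) :
    (e ∈ f0 v v' S T ∧ v ∈ e) ↔ e = {v, v'} ∨ e = {v, S v'} := by
  obtain ⟨-, -, hP, -, -, -⟩ := h v v' S T q G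
  constructor
  · rintro ⟨⟨k, rfl⟩, hv⟩
    rw [edge_eq G] at hv ⊢
    rcases hv with hv | hv
    · left
      have h1 := hP k hv.symm
      rw [zpow_add_one, h1, one_mul, gen_Pv G, Equiv.Perm.one_apply]
    · right
      rw [Set.mem_singleton_iff] at hv
      have h1 := hP (k + 1) hv.symm
      have h2 : (T * S⁻¹) ^ k = (T * S⁻¹)⁻¹ := by
        rw [zpow_add_one] at h1
        exact eq_inv_of_mul_eq_one_left h1
      rw [h1, h2, gen_Pinv_v G, Equiv.Perm.one_apply, Set.pair_comm]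
  · rintro (rfl | rfl)
    · exact ⟨base_mem_f0 _ _ _ _, by simp⟩
    · exact ⟨base_mem_f0' G, by simp⟩

/-- edges of the second face at `v` -/
lemma mem_Tf0_iff (h : T_EA) (G : Gen v v' S T q) (e : Set H3) :
    (e ∈ (Set.image T) '' f0 v v' S T ∧ v ∈ e) ↔ e = {v, v'} ∨ e = {v, S⁻¹ v'} := by
  have key : ∀ e : Set H3, (e ∈ f0 v v' S T ∧ v' ∈ e) ↔ e = {v, v'} ∨
      e = {v', (T * S⁻¹ : Equiv.Perm H3) v'} := by
    intro e
    have hinv : (T * S⁻¹ : Equiv.Perm H3) '' (((T * S⁻¹)⁻¹ : Equiv.Perm H3) '' e) = e := by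
      rw [← Set.image_comp, ← Equiv.Perm.coe_mul, mul_inv_cancel]
      simp
    have h1 : (e ∈ f0 v v' S T ∧ v' ∈ e) ↔
        (((T * S⁻¹)⁻¹ : Equiv.Perm H3) '' e ∈ f0 v v' S T ∧
          v ∈ ((T * S⁻¹)⁻¹ : Equiv.Perm H3) '' e) := by
      constructor
      · rintro ⟨he, hv⟩
        constructor
        · rw [← image_f0 v v' S T (-1)]
          exact ⟨e, he, by rw [zpow_neg_one]⟩
        · exact ⟨v', hv, gen_Pinv_v' G⟩
      · rintro ⟨he, hv⟩
        constructor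
        · rw [← hinv, ← image_f0 v v' S T 1]
          exact ⟨_, he, by rw [zpow_one]⟩
        · rw [← hinv]
          exact ⟨v, hv, gen_Pv G⟩
    rw [h1, mem_f0_iff h G]
    have h2 : ∀ x : Set H3, ((T * S⁻¹)⁻¹ : Equiv.Perm H3) '' e = x ↔
        e = (T * S⁻¹ : Equiv.Perm H3) '' x := by
      intro x
      constructor
      · rintro rfl
        exact hinv.symm
      · rintro rfl
        rw [← Set.image_comp, ← Equiv.Perm.coe_mul, inv_mul_cancel]
        simp
    rw [h2, h2, Set.image_pair, Set.image_pair, gen_Pv G]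
    have h3 : (T * S⁻¹ : Equiv.Perm H3) (S v') = v := by
      have h4 : S⁻¹ (S v') = v' := by simp
      rw [Equiv.Perm.mul_apply, h4, gen_Tv' G]
    rw [h3, Set.pair_comm v' v, or_comm]
  have hT : ∀ e : Set H3, T '' (T '' e) = e := by
    intro e
    rw [← Set.image_comp, ← Equiv.Perm.coe_mul, G.TT]
    simp
  have h1 : (e ∈ (Set.image T) '' f0 v v' S T ∧ v ∈ e) ↔ (T '' e ∈ f0 v v' S T ∧ v' ∈ T '' e) := by
    constructor
    · rintro ⟨⟨e', he', rfl⟩, hv⟩
      refine ⟨by rwa [hT], ⟨v, hv, G.Tv⟩⟩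
    · rintro ⟨he, hv⟩
      refine ⟨⟨T '' e, he, hT e⟩, ?_⟩
      rw [← hT e]
      exact ⟨v', hv, gen_Tv' G⟩
  have h2 : ∀ x : Set H3, T '' e = x ↔ e = T '' x := by
    intro x
    constructor
    · rintro rfl; exact (hT e).symm
    · rintro rfl; exact hT x
  rw [h1, key, h2, h2, Set.image_pair, Set.image_pair, G.Tv, gen_Tv' G, Set.pair_comm v' v]
  have h3 : T ((T * S⁻¹ : Equiv.Perm H3) v') = S⁻¹ v' := by
    rw [← Equiv.Perm.mul_apply, ← mul_assoc, G.TT, one_mul]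
  rw [h3]

theorem eb (h : T_EA) : T_EB := by
  intro v v' S T q G
  obtain ⟨-, hE2, hP, -, hS1, hS2⟩ := h v v' S T q G
  have hv : ∀ x, v ≠ x → ∀ y, ({v, x} : Set H3) = {v, y} → x = y := by
    intro x hx y hxy
    rw [Set.pair_eq_pair_iff] at hxy
    rcases hxy with ⟨-, h1⟩ | ⟨h1, h2⟩
    · exact h1
    · exact absurd h2.symm hx
  have hT : (Set.image T) {v, v'} = {v, v'} := by
    rw [Set.image_pair, G.Tv, gen_Tv' G, Set.pair_comm]
  refine ⟨?_, ?_, ?_, ?_⟩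
  · ext e
    simp only [Set.mem_ofPred_eq, mem_f0_iff h G, Set.mem_insert_iff, Set.mem_singleton_iff]
  · ext e
    simp only [Set.mem_ofPred_eq, mem_Tf0_iff h G, Set.mem_insert_iff, Set.mem_singleton_iff]
  · intro heq
    have h1 : ({v, S v'} : Set H3) ∈ (Set.image T) '' f0 v v' S T ∧ v ∈ ({v, S v'} : Set H3) := by
      rw [← heq]
      exact ⟨base_mem_f0' G, by simp⟩
    rw [mem_Tf0_iff h G] at h1
    have hSv : v ≠ S v' := by
      intro h2
      apply G.ne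
      apply S.injective
      rw [← h2, G.Sv]
    rcases h1 with h1 | h1
    · exact hS1 (hv _ hSv _ h1)
    · exact hS2 (hv _ hSv _ h1)
  · intro g hg hmem
    obtain ⟨e, ⟨k, rfl⟩, he⟩ := hmem
    have h1 : (g * (T * S⁻¹) ^ k) '' {v, v'} = {v, v'} := by
      rw [Equiv.Perm.coe_mul, Set.image_comp, he]
    have h2 := hE2 _ (mul_mem hg (P_zpow_mem S T k)) h1
    have h3 : (Set.image g) '' f0 v v' S T =
        (Set.image (g * (T * S⁻¹) ^ k : Equiv.Perm H3)) '' f0 v v' S T := by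
      rw [← image_image_set, image_f0]
    rw [h3]
    rcases h2 with h2 | h2
    · left
      rw [h2]
      have : (Set.image (1 : Equiv.Perm H3)) = (id : Set H3 → Set H3) := by
        funext e; simp
      rw [this, Set.image_id]
    · right
      rw [h2]

end Pool.Agent.H36.CP
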