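import Pool.Agent.H36.CP.EA

/-!
# MP_397744_co: modules EC, ED and EE of the board `cp_modules`
-/

set_option autoImplicit false

namespace Pool.Agent.H36.CP

open Pool.Agent.H57.CP

variable {v v' : H3} {S T : Equiv.Perm H3} {q : ℕ}

lemma iso_one : IsIso 1 := fun _ _ => rfl

lemma iso_mul {g h : Equiv.Perm H3} (hg : IsIso g) (hh : IsIso h) : IsIso (g * h) := by
  intro x y
  rw [Equiv.Perm.mul_apply, Equiv.Perm.mul_apply, hg, hh]

lemma iso_inv {g : Equiv.Perm H3} (hg : IsIso g) : IsIso g⁻¹ := by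
  intro x y
  rw [← hg (g⁻¹ x) (g⁻¹ y)]
  simp

lemma iso_mem (hS : IsIso S) (hT : IsIso T) {g : Equiv.Perm H3} (hg : g ∈ Gr S T) : IsIso g := by
  unfold Gr at hg
  induction hg using Subgroup.closure_induction with
  | mem x hx =>
    rcases hx with rfl | hx
    · exact hS
    · rw [Set.mem_singleton_iff] at hx
      rw [hx]; exact hT
  | one => exact iso_one
  | mul x y _ _ hx hy => exact iso_mul hx hy
  | inv x _ hx => exact iso_inv hx

lemma image_mul (g h : Equiv.Perm H3) (e : Set H3) : (g * h : Equiv.Perm H3) '' e = g '' (h '' e) := by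
  rw [Equiv.Perm.coe_mul, Set.image_comp]

lemma image_one_set (f : Set (Set H3)) : (Set.image (1 : Equiv.Perm H3)) '' f = f := by
  have : (Set.image (1 : Equiv.Perm H3)) = (id : Set H3 → Set H3) := by
    funext e; simp
  rw [this, Set.image_id]

lemma image2_injective (g : Equiv.Perm H3) :
    Function.Injective (fun f : Set (Set H3) => (Set.image g) '' f) :=
  Set.image_injective.mpr (Set.image_injective.mpr g.injective)

lemma mem_image2 (g : Equiv.Perm H3) (e : Set H3) (f : Set (Set H3)) :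
    g '' e ∈ (Set.image g) '' f ↔ e ∈ f :=
  (Set.image_injective.mpr g.injective).mem_set_image

theorem ec (h1 : T_EA) (h2 : T_EB) : T_EC := by
  intro v v' S T q G
  obtain ⟨hE1, hE2, hP, hTv', hS1, hS2⟩ := h1 v v' S T q G
  obtain ⟨hB1, hB2, hB3, hB4⟩ := h2 v v' S T q G
  have hSv : v ≠ S v' := by
    intro h
    apply G.ne
    apply S.injective
    rw [← h, G.Sv]
  refine ⟨⟨v, 1, one_mem _, rfl⟩, ?_, ?_, ?_, ?_, ?_, ?_⟩
  · rintro e ⟨g, hg, rfl⟩
    refine ⟨g v, ⟨g, hg, rfl⟩, g v', ⟨g * T, mul_mem hg (T_mem S T), ?_⟩, ?_, ?_⟩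
    · rw [Equiv.Perm.mul_apply, G.Tv]
    · exact fun h => G.ne (g.injective h)
    · rw [Set.image_pair]
  · rintro f ⟨g, hg, rfl⟩
    constructor
    · rintro e ⟨e', ⟨k, rfl⟩, rfl⟩
      exact ⟨g * (T * S⁻¹) ^ k, mul_mem hg (P_zpow_mem S T k), by rw [image_mul]⟩
    · exact ⟨_, _, base_mem_f0 v v' S T, rfl⟩
  · rintro x ⟨g, hg, rfl⟩
    exact ⟨g '' {v, v'}, ⟨g, hg, rfl⟩, v, by simp, rfl⟩
  · rintro e ⟨g, hg, rfl⟩
    have h3 : {f | f ∈ (Kst v v' S T).F ∧ g '' {v, v'} ∈ f} =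
        (fun f : Set (Set H3) => (Set.image g) '' f) ''
          {f0 v v' S T, (Set.image T) '' f0 v v' S T} := by
      ext f
      constructor
      · rintro ⟨⟨h, hh, rfl⟩, hmem⟩
        have h4 : (Set.image h) '' f0 v v' S T =
            (Set.image g) '' ((Set.image (g⁻¹ * h : Equiv.Perm H3)) '' f0 v v' S T) := by
          rw [image_image_set, mul_inv_cancel_left]
        rw [h4, mem_image2] at hmem
        refine ⟨_, ?_, h4.symm⟩
        exact hB4 _ (mul_mem (inv_mem hg) hh) hmem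
      · rintro ⟨f', hf', rfl⟩
        rcases hf' with rfl | hf'
        · refine ⟨⟨g, hg, rfl⟩, ?_⟩
          exact (mem_image2 g _ _).2 (base_mem_f0 v v' S T)
        · rw [Set.mem_singleton_iff] at hf'
          subst hf'
          refine ⟨⟨g * T, mul_mem hg (T_mem S T), (image_image_set _ _ _)⟩, ?_⟩
          refine (mem_image2 g _ _).2 ⟨{v, v'}, base_mem_f0 v v' S T, ?_⟩
          rw [Set.image_pair, G.Tv, hTv', Set.pair_comm]
    rw [h3, Set.ncard_image_of_injective _ (image2_injective g), Set.ncard_pair hB3]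
  · rintro f ⟨g, hg, rfl⟩ e ⟨e', ⟨k, rfl⟩, rfl⟩ x hx
    obtain ⟨l, hl, hx'⟩ : ∃ l : ℤ, (Set.image g) '' f0 v v' S T =
        (Set.image (g * (T * S⁻¹) ^ l : Equiv.Perm H3)) '' f0 v v' S T ∧
        x = (g * (T * S⁻¹) ^ l : Equiv.Perm H3) v := by
      rw [edge_eq G] at hx
      obtain ⟨y, hy, rfl⟩ := hx
      rcases hy with hy | hy
      · exact ⟨k, by rw [← image_image_set, image_f0], by rw [hy, Equiv.Perm.mul_apply]⟩
      · rw [Set.mem_singleton_iff] at hy
        exact ⟨k + 1, by rw [← image_image_set, image_f0], by rw [hy, Equiv.Perm.mul_apply]⟩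
    rw [hl, hx']
    obtain ⟨h, hh⟩ : ∃ h, h = (g * (T * S⁻¹) ^ l : Equiv.Perm H3) := ⟨_, rfl⟩
    rw [← hh]
    have h3 : {e' | e' ∈ (Set.image h) '' f0 v v' S T ∧ h v ∈ e'} =
        (Set.image h) '' {e | e ∈ f0 v v' S T ∧ v ∈ e} := by
      ext e'
      constructor
      · rintro ⟨⟨e1, he1, rfl⟩, hmem⟩
        exact ⟨e1, ⟨he1, (h.injective.mem_set_image).1 hmem⟩, rfl⟩
      · rintro ⟨e1, ⟨he1, hv⟩, rfl⟩
        exact ⟨⟨e1, he1, rfl⟩, v, hv, rfl⟩
    rw [h3, Set.ncard_image_of_injective _ (Set.image_injective.mpr h.injective), hB1,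
      Set.ncard_pair]
    intro h4
    rw [Set.pair_eq_pair_iff] at h4
    rcases h4 with ⟨-, h4⟩ | ⟨h4, -⟩
    · exact hS1 h4.symm
    · exact hSv h4
  · rintro x ⟨g, hg, rfl⟩
    obtain ⟨ε, hε, hd⟩ := G.di
    refine ⟨ε, hε, ?_⟩
    rintro y ⟨h, hh, rfl⟩ hne
    have h3 := hd (g⁻¹ * h) (mul_mem (inv_mem hg) hh) ?_
    · rw [← iso_mem G.iS G.iT (inv_mem hg) (g v) (h v)]
      have h4 : g⁻¹ (g v) = v := by simp
      rwa [h4, ← Equiv.Perm.mul_apply]
    · rw [Equiv.Perm.mul_apply, Ne, Equiv.Perm.inv_eq_iff_eq]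
      exact fun h => hne h

lemma rtg_int {α : Type*} (R : α → α → Prop) (x : ℤ → α) (h1 : ∀ k, R (x k) (x (k + 1)))
    (h2 : ∀ k, R (x (k + 1)) (x k)) (k l : ℤ) : Relation.ReflTransGen R (x k) (x l) := by
  have h3 : ∀ n : ℕ, ∀ k : ℤ, Relation.ReflTransGen R (x k) (x (k + n)) ∧
      Relation.ReflTransGen R (x (k + n)) (x k) := by
    intro n
    induction n with
    | zero =>
      intro k
      simp [Relation.ReflTransGen.refl]
    | succ n ih =>
      intro k
      obtain ⟨h4, h5⟩ := ih k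
      have h6 : k + ((n + 1 : ℕ) : ℤ) = (k + n) + 1 := by push_cast; ring
      rw [h6]
      exact ⟨h4.tail (h1 _), h5.head (h2 _)⟩
  rcases le_total k l with h | h
  · obtain ⟨n, hn⟩ := Int.eq_ofNat_of_zero_le (sub_nonneg.2 h)
    have : l = k + n := by rw [← hn]; ring
    rw [this]
    exact (h3 n k).1
  · obtain ⟨n, hn⟩ := Int.eq_ofNat_of_zero_le (sub_nonneg.2 h)
    have : k = l + n := by rw [← hn]; ring
    rw [this]
    exact (h3 n l).2

lemma rtg_symm {α : Type*} {R : α → α → Prop} (hR : ∀ a b, R a b → R b a) {x y : α}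
    (h : Relation.ReflTransGen R x y) : Relation.ReflTransGen R y x := by
  induction h with
  | refl => exact Relation.ReflTransGen.refl
  | tail _ h2 ih => exact ih.head (hR _ _ h2)

lemma S_zpow_v (G : Gen v v' S T q) (k : ℤ) : (S ^ k : Equiv.Perm H3) v = v :=
  Function.IsFixedPt.perm_zpow (e := S) (x := v) G.Sv k

/-- the edges at the vertex `g v` -/
lemma edge_at (G : Gen v v' S T q) {g : Equiv.Perm H3} (hg : g ∈ Gr S T) {e : Set H3}
    (he : e ∈ (Kst v v' S T).E) (hv : g v ∈ e) : ∃ k : ℕ, e = (g * S ^ k : Equiv.Perm H3) '' {v, v'} := by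
  have key : ∃ h ∈ Gr S T, h v = g v ∧ e = h '' {v, v'} := by
    obtain ⟨h, hh, rfl⟩ := he
    obtain ⟨y, hy, hy'⟩ := hv
    rcases hy with rfl | hy
    · exact ⟨h, hh, hy', rfl⟩
    · rw [Set.mem_singleton_iff] at hy
      subst hy
      refine ⟨h * T, mul_mem hh (T_mem S T), ?_, ?_⟩
      · rw [Equiv.Perm.mul_apply, G.Tv, hy']
      · rw [image_mul, Set.image_pair T, G.Tv, gen_Tv' G, Set.pair_comm]
  obtain ⟨h, hh, hv1, rfl⟩ := key
  obtain ⟨k, hk⟩ := G.st (g⁻¹ * h) (mul_mem (inv_mem hg) hh) (by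
    rw [Equiv.Perm.mul_apply, hv1]; simp)
  refine ⟨k, ?_⟩
  rw [← hk, mul_inv_cancel_left]

theorem ed' (_h1 : T_EA) (_h2 : T_EB) : T_ED := by
  intro v v' S T q G
  refine ⟨?_, ?_, ?_⟩
  · rintro f ⟨g, hg, rfl⟩ e ⟨e1, ⟨k, rfl⟩, rfl⟩ e' ⟨e2, ⟨l, rfl⟩, rfl⟩
    refine rtg_int (fun a b : Set H3 => b ∈ (Set.image g) '' f0 v v' S T ∧ (a ∩ b).Nonempty)
      (fun k => g '' (((T * S⁻¹) ^ k : Equiv.Perm H3) '' {v, v'})) ?_ ?_ k l
    · intro k
      refine ⟨⟨_, ⟨k + 1, rfl⟩, rfl⟩, g (((T * S⁻¹) ^ (k + 1) : Equiv.Perm H3) v), ?_, ?_⟩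
      · exact ⟨_, by rw [edge_eq G]; simp, rfl⟩
      · exact ⟨_, by rw [edge_eq G]; simp, rfl⟩
    · intro k
      refine ⟨⟨_, ⟨k, rfl⟩, rfl⟩, g (((T * S⁻¹) ^ (k + 1) : Equiv.Perm H3) v), ?_, ?_⟩
      · exact ⟨_, by rw [edge_eq G]; simp, rfl⟩
      · exact ⟨_, by rw [edge_eq G]; simp, rfl⟩
  · rintro x ⟨g, hg, rfl⟩ e he hxe e' he' hxe'
    obtain ⟨k, rfl⟩ := edge_at G hg he hxe
    obtain ⟨l, rfl⟩ := edge_at G hg he' hxe'
    have h3 := rtg_int (fun a b : Set H3 => g v ∈ b ∧ ∃ f ∈ (Kst v v' S T).F, a ∈ f ∧ b ∈ f)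
      (fun k => (g * S ^ k : Equiv.Perm H3) '' {v, v'}) ?_ ?_ k l
    · simpa using h3
    · intro k
      refine ⟨⟨v, by simp, ?_⟩, ?_⟩
      · rw [Equiv.Perm.mul_apply, S_zpow_v G]
      · refine ⟨(Set.image (g * S ^ k : Equiv.Perm H3)) '' f0 v v' S T,
          ⟨_, mul_mem hg (zpow_mem (S_mem S T) k), rfl⟩, ?_, ?_⟩
        · exact (mem_image2 _ _ _).2 (base_mem_f0 _ _ _ _)
        · have h4 : (g * S ^ (k + 1) : Equiv.Perm H3) '' {v, v'} =
              (g * S ^ k : Equiv.Perm H3) '' {v, S v'} := by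
            rw [zpow_add_one, ← mul_assoc, image_mul (g * S ^ k) S, Set.image_pair S, G.Sv]
          rw [h4]
          exact (mem_image2 _ _ _).2 (base_mem_f0' G)
    · intro k
      refine ⟨⟨v, by simp, ?_⟩, ?_⟩
      · rw [Equiv.Perm.mul_apply, S_zpow_v G]
      · refine ⟨(Set.image (g * S ^ k : Equiv.Perm H3)) '' f0 v v' S T,
          ⟨_, mul_mem hg (zpow_mem (S_mem S T) k), rfl⟩, ?_, ?_⟩
        · have h4 : (g * S ^ (k + 1) : Equiv.Perm H3) '' {v, v'} =
              (g * S ^ k : Equiv.Perm H3) '' {v, S v'} := by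
            rw [zpow_add_one, ← mul_assoc, image_mul (g * S ^ k) S, Set.image_pair S, G.Sv]
          rw [h4]
          exact (mem_image2 _ _ _).2 (base_mem_f0' G)
        · exact (mem_image2 _ _ _).2 (base_mem_f0 _ _ _ _)
  · have key : ∀ g ∈ Gr S T, ∀ h ∈ Gr S T,
        Relation.ReflTransGen (fun a b => ({a, b} : Set H3) ∈ (Kst v v' S T).E) (h v) (h (g v)) := by
      intro g hg
      unfold Gr at hg
      induction hg using Subgroup.closure_induction with
      | mem x hx =>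
        intro h hh
        rcases hx with rfl | hx
        · rw [G.Sv]
        · rw [Set.mem_singleton_iff] at hx
          rw [hx, G.Tv]
          refine Relation.ReflTransGen.single ⟨h, hh, ?_⟩
          rw [Set.image_pair]
      | one => intro h _; exact Relation.ReflTransGen.refl
      | mul x y hx _ ihx ihy =>
        intro h hh
        have h3 := ihy (h * x) (mul_mem hh hx)
        rw [Equiv.Perm.mul_apply]
        exact (ihx h hh).trans h3
      | inv x hx ih =>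
        intro h hh
        have h3 := ih (h * x⁻¹) (mul_mem hh (inv_mem hx))
        have h4 : (h * x⁻¹ : Equiv.Perm H3) (x v) = h v := by simp
        rw [h4, Equiv.Perm.mul_apply] at h3
        exact rtg_symm (fun a b hab => by rwa [Set.pair_comm]) h3
    rintro x ⟨g, hg, rfl⟩ y ⟨h, hh, rfl⟩
    have h3 := key (g⁻¹ * h) (mul_mem (inv_mem hg) hh) g hg
    have h4 : g ((g⁻¹ * h : Equiv.Perm H3) v) = h v := by simp
    rwa [h4] at h3

theorem ee (h1 : T_EA) (_h2 : T_EB) : T_EE := by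
  intro v v' S T q p G hp
  obtain ⟨hE1, hE2, hP, hTv', hS1, hS2⟩ := h1 v v' S T q G
  refine ⟨⟨?_, ?_⟩, ?_⟩
  · rintro f ⟨g, hg, rfl⟩
    have h3 : {x | ∃ e ∈ (Set.image g) '' f0 v v' S T, x ∈ e} =
        g '' {x | ∃ k : ℤ, x = ((T * S⁻¹) ^ k : Equiv.Perm H3) v} := by
      ext x
      constructor
      · rintro ⟨e, ⟨e1, ⟨k, rfl⟩, rfl⟩, hx⟩
        rw [edge_eq G] at hx
        obtain ⟨y, hy, rfl⟩ := hx
        rcases hy with hy | hy
        · exact ⟨y, ⟨k, hy⟩, rfl⟩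
        · exact ⟨y, ⟨k + 1, hy⟩, rfl⟩
      · rintro ⟨y, ⟨k, rfl⟩, rfl⟩
        refine ⟨_, ⟨_, ⟨k, rfl⟩, rfl⟩, _, ?_, rfl⟩
        rw [edge_eq G]
        simp
    rw [h3, g.injective.encard_image, hp]
  · rintro x ⟨g, hg, rfl⟩
    have hq : 0 < q := by have := G.q3; omega
    have h3 : {e | e ∈ (Kst v v' S T).E ∧ g v ∈ e} =
        (fun k : ℕ => (g * S ^ k : Equiv.Perm H3) '' {v, v'}) '' (Finset.range q : Set ℕ) := by
      ext e
      constructor
      · rintro ⟨he, hv⟩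
        obtain ⟨k, rfl⟩ := edge_at G hg he hv
        refine ⟨k % q, by simp [Nat.mod_lt _ hq], ?_⟩
        have h4 : S ^ k = S ^ (k % q) := by
          conv_lhs => rw [← Nat.div_add_mod k q, pow_add, pow_mul, G.Sq, one_pow, one_mul]
        simp only [h4]
      · rintro ⟨k, hk, rfl⟩
        refine ⟨⟨_, mul_mem hg (pow_mem (S_mem S T) k), rfl⟩, v, by simp, ?_⟩
        have := S_zpow_v G k
        rw [zpow_natCast] at this
        rw [Equiv.Perm.mul_apply, this]
    rw [h3, Set.InjOn.encard_image, Set.encard_coe_eq_coe_finsetCard, Finset.card_range]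
    have key : ∀ k l : ℕ, k < q → l < q → k < l → (g * S ^ k : Equiv.Perm H3) '' {v, v'} ≠
        (g * S ^ l : Equiv.Perm H3) '' {v, v'} := by
      intro k l hk hl hkl heq
      obtain ⟨m, rfl⟩ := Nat.exists_eq_add_of_lt hkl
      rw [show k + m + 1 = k + (m + 1) by ring, pow_add, ← mul_assoc, image_mul _ (S ^ (m + 1))]
        at heq
      have h4 := Set.image_injective.mpr (g * S ^ k).injective heq
      rw [Set.image_pair] at h4
      have h5 : (S ^ (m + 1) : Equiv.Perm H3) v = v := by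
        have := S_zpow_v G (m + 1 : ℕ)
        rwa [zpow_natCast] at this
      rw [h5, Set.pair_eq_pair_iff] at h4
      rcases h4 with ⟨-, h4⟩ | ⟨h4, h6⟩
      · exact G.fr (m + 1) (by omega) (by omega) h4.symm
      · exact G.ne h6.symm
    intro k hk l hl heq
    simp only [Finset.coe_range, Set.mem_Iio] at hk hl
    rcases lt_trichotomy k l with h | h | h
    · exact absurd heq (key k l hk hl h)
    · exact h
    · exact absurd heq.symm (key l k hl hk h)
  · rintro e ⟨g, hg, rfl⟩ x ⟨x', hx', rfl⟩ y ⟨y', hy', rfl⟩ hne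
    rw [iso_mem G.iS G.iT hg]
    rcases hx' with rfl | hx' <;> rcases hy' with rfl | hy'
    · exact absurd rfl hne
    · rw [Set.mem_singleton_iff] at hy'; rw [hy']
    · rw [Set.mem_singleton_iff] at hx'; rw [hx']
      unfold ch mk
      ring
    · rw [Set.mem_singleton_iff] at hx' hy'
      rw [hx', hy'] at hne
      exact absurd rfl hne

end Pool.Agent.H36.CP
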